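import Pool.Agent.H60.LQ.Cfg
import Pool.Agent.H32.Dense.Fam

/-!
# LQ: (ENG2), energies between times of different lines
-/

set_option autoImplicit false

namespace Pool.LQ

open Finset Real
open Pool.Agent.H49.Ent Pool.Agent.H32.Dense Pool.KTH

section Psd

variable {A B : Type*} [Fintype A] [Fintype B]

lemma eng_sum (P : A → ℝ) (X : A → ℤ) (S : Finset ℤ) (hS : ∀ a, X a ∈ S) (g : ℤ → ℝ) :
    ∑ a, P a * g (X a) = ∑ x ∈ S, law P X x * g x := by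
  classical
  unfold law
  simp_rw [Finset.sum_mul]
  rw [Finset.sum_comm]
  refine Finset.sum_congr rfl fun a _ => ?_
  rw [Finset.sum_eq_single (X a)]
  · simp
  · intro x _ hx
    rw [if_neg (Ne.symm hx), zero_mul]
  · intro h
    exact absurd (hS a) h

lemma eng_sum2 (P : A → ℝ) (Q : B → ℝ) (X : A → ℤ) (Y : B → ℤ) (S : Finset ℤ)
    (hX : ∀ a, X a ∈ S) (hY : ∀ b, Y b ∈ S) (J : ℕ) :
    ∑ a, ∑ b, P a * Q b * eg J (X a) (Y b) =
      ∑ x ∈ S, ∑ y ∈ S, law P X x * law Q Y y * eg J x y := by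
  have e1 : ∀ a, ∑ b, P a * Q b * eg J (X a) (Y b) =
      P a * ∑ y ∈ S, law Q Y y * eg J (X a) y := by
    intro a
    rw [← eng_sum Q Y S hY (fun y => eg J (X a) y), Finset.mul_sum]
    exact Finset.sum_congr rfl fun b _ => by ring
  simp_rw [e1]
  rw [eng_sum P X S hX (fun x => ∑ y ∈ S, law Q Y y * eg J x y)]
  refine Finset.sum_congr rfl fun x _ => ?_
  rw [Finset.mul_sum]
  exact Finset.sum_congr rfl fun b _ => by ring

/-- The inequality (PSD) for finite random variables. -/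
lemma eng_psd {J : ℕ} {C : ℝ}
    (hC : ∀ (S : Finset ℤ) (μ ν : ℤ → ℝ), (∀ x, 0 ≤ μ x) → (∀ x, 0 ≤ ν x) →
      ∑ x ∈ S, μ x = 1 → ∑ x ∈ S, ν x = 1 →
      ∑ x ∈ S, ∑ y ∈ S, μ x * ν y * eg J x y ≤
      ((∑ x ∈ S, ∑ y ∈ S, μ x * μ y * eg J x y) + ∑ x ∈ S, ∑ y ∈ S, ν x * ν y * eg J x y) / 2 + C)
    (P : A → ℝ) (Q : B → ℝ) (hP : ∀ a, 0 ≤ P a) (hQ : ∀ b, 0 ≤ Q b) (hP1 : ∑ a, P a = 1)
    (hQ1 : ∑ b, Q b = 1) (X : A → ℤ) (Y : B → ℤ) :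
    ∑ a, ∑ b, P a * Q b * eg J (X a) (Y b) ≤
      ((∑ a, ∑ a', P a * P a' * eg J (X a) (X a')) +
        ∑ b, ∑ b', Q b * Q b' * eg J (Y b) (Y b')) / 2 + C := by
  classical
  obtain ⟨S, hS⟩ : ∃ S : Finset ℤ, S = univ.image X ∪ univ.image Y := ⟨_, rfl⟩
  have hX : ∀ a, X a ∈ S := fun a => by
    rw [hS]
    exact Finset.mem_union_left _ (Finset.mem_image_of_mem _ (Finset.mem_univ _))
  have hY : ∀ b, Y b ∈ S := fun b => by
    rw [hS]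
    exact Finset.mem_union_right _ (Finset.mem_image_of_mem _ (Finset.mem_univ _))
  have h1 : ∑ x ∈ S, law P X x = 1 := by
    have := eng_sum P X S hX (fun _ => 1)
    simp only [mul_one] at this
    rw [← this, hP1]
  have h2 : ∑ x ∈ S, law Q Y x = 1 := by
    have := eng_sum Q Y S hY (fun _ => 1)
    simp only [mul_one] at this
    rw [← this, hQ1]
  have h3 := hC S (law P X) (law Q Y) (fun x => law_nonneg hP X x) (fun x => law_nonneg hQ Y x)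
    h1 h2
  rw [eng_sum2 P Q X Y S hX hY J, eng_sum2 P P X X S hX hX J, eng_sum2 Q Q Y Y S hY hY J]
  exact h3

end Psd

/-! ### Kernels -/

section Ker

variable {Ω β : Type*} [Fintype Ω]

open Classical in
/-- The conditional law given `b = c`. -/
noncomputable def kk (p : Ω → ℝ) (b : Ω → β) (c : β) (ω : Ω) : ℝ :=
  if b ω = c then p ω / law p b c else 0

lemma kk_nonneg {p : Ω → ℝ} (hp : ∀ ω, 0 ≤ p ω) (b : Ω → β) (c : β) (ω : Ω) :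
    0 ≤ kk p b c ω := by
  unfold kk
  split_ifs
  · exact div_nonneg (hp ω) (law_nonneg hp b c)
  · exact le_rfl

lemma kk_sum {p : Ω → ℝ} {b : Ω → β} {c : β} (h : 0 < law p b c) : ∑ ω, kk p b c ω = 1 := by
  classical
  unfold kk
  have h1 : ∀ ω, (if b ω = c then p ω / law p b c else 0) =
      (if b ω = c then p ω else 0) / law p b c := by
    intro ω
    split_ifs
    · rfl
    · rw [zero_div]
  have h2 : ∑ ω, (if b ω = c then p ω else 0) = law p b c := by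
    unfold law
    exact Finset.sum_congr rfl fun ω _ => by congr
  simp_rw [h1]
  rw [← Finset.sum_div, h2, div_self h.ne']

lemma law_pos' {p : Ω → ℝ} (hp : ∀ ω, 0 ≤ p ω) (b : Ω → β) {ω : Ω} (h : 0 < p ω) :
    0 < law p b (b ω) := by
  classical
  unfold law
  refine lt_of_lt_of_le h ?_
  have := Finset.single_le_sum (f := fun ω' => if b ω' = b ω then p ω' else 0)
    (fun i _ => by
      split_ifs
      · exact hp i
      · exact le_rfl) (Finset.mem_univ ω)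
  simpa using this

lemma dbl_kk (p : Ω → ℝ) (b : Ω → β) (x y : Ω) :
    dbl p b (x, y) = p x * kk p b (b x) y := by
  unfold dbl glue kk
  by_cases h : b x = b y
  · rw [if_pos h, if_pos h.symm]
    ring
  · rw [if_neg h, if_neg (Ne.symm h), mul_zero]

/-- Gluing, in terms of kernels. -/
lemma glue_kk {Ω₁ : Type*} [Fintype Ω₁] (p₁ : Ω₁ → ℝ) (p : Ω → ℝ) (f : Ω₁ → β) (b : Ω → β)
    (h : ∀ z, law p₁ f z = law p b z) (w : Ω₁) (x : Ω) :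
    glue p₁ p f b (w, x) = p₁ w * kk p b (f w) x := by
  unfold glue kk
  by_cases h' : f w = b x
  · rw [if_pos h', if_pos h'.symm, h]
    ring
  · rw [if_neg h', if_neg (Ne.symm h'), mul_zero]

lemma tri_kk {p : Ω → ℝ} (hp : ∀ ω, 0 ≤ p ω) (b : Ω → β) (x y z : Ω) :
    tri p b ((x, y), z) = p x * kk p b (b x) y * kk p b (b x) z := by
  have h := glue_kk (dbl p b) p (fun w => b w.1) b (dbl_law hp) (x, y) z
  unfold tri
  rw [h, dbl_kk]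

end Ker

/-- The expectation with respect to a law with two conditionally independent components. -/
lemma eng_split {Ω₁ Ω₀ A B : Type*} [Fintype Ω₁] [Fintype Ω₀] [Fintype A] [Fintype B]
    (q : Ω₁ → ℝ) (e : Ω₁ ≃ Ω₀ × (A × B)) (R : Ω₀ → ℝ) (k₁ : Ω₀ → A → ℝ) (k₂ : Ω₀ → B → ℝ)
    (hq : ∀ w, q w = R (e w).1 * (k₁ (e w).1 (e w).2.1 * k₂ (e w).1 (e w).2.2))
    (F : Ω₀ → A → B → ℝ) :
    Ex q (fun w => F (e w).1 (e w).2.1 (e w).2.2) =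
      ∑ w, R w * ∑ a, ∑ b, k₁ w a * k₂ w b * F w a b := by
  unfold Ex
  have h1 : ∀ w, q w * F (e w).1 (e w).2.1 (e w).2.2 =
      (fun x : Ω₀ × (A × B) => R x.1 * (k₁ x.1 x.2.1 * k₂ x.1 x.2.2) * F x.1 x.2.1 x.2.2) (e w) :=
    fun w => by rw [hq w]
  rw [Finset.sum_congr rfl fun w _ => h1 w, Equiv.sum_comp e
    (fun x : Ω₀ × (A × B) => R x.1 * (k₁ x.1 x.2.1 * k₂ x.1 x.2.2) * F x.1 x.2.1 x.2.2),
    Fintype.sum_prod_type]
  refine Finset.sum_congr rfl fun w _ => ?_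
  rw [Fintype.sum_prod_type, Finset.mul_sum]
  refine Finset.sum_congr rfl fun a _ => ?_
  rw [Finset.mul_sum]
  exact Finset.sum_congr rfl fun b _ => by ring

/-- Cross energies of conditionally independent variables. -/
lemma eng_dd {Ω₁ Ω₀ A B : Type*} [Fintype Ω₁] [Fintype Ω₀] [Fintype A] [Fintype B] {J : ℕ} {C : ℝ}
    (hC : ∀ (S : Finset ℤ) (μ ν : ℤ → ℝ), (∀ x, 0 ≤ μ x) → (∀ x, 0 ≤ ν x) →
      ∑ x ∈ S, μ x = 1 → ∑ x ∈ S, ν x = 1 →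
      ∑ x ∈ S, ∑ y ∈ S, μ x * ν y * eg J x y ≤
      ((∑ x ∈ S, ∑ y ∈ S, μ x * μ y * eg J x y) + ∑ x ∈ S, ∑ y ∈ S, ν x * ν y * eg J x y) / 2 + C)
    (q : Ω₁ → ℝ) (e : Ω₁ ≃ Ω₀ × (A × B)) (R : Ω₀ → ℝ) (k₁ : Ω₀ → A → ℝ) (k₂ : Ω₀ → B → ℝ)
    (hR : ∀ w, 0 ≤ R w) (h1 : ∀ w a, 0 ≤ k₁ w a) (h2 : ∀ w b, 0 ≤ k₂ w b)
    (s1 : ∀ w, 0 < R w → ∑ a, k₁ w a = 1) (s2 : ∀ w, 0 < R w → ∑ b, k₂ w b = 1)
    (hq : ∀ w, q w = R (e w).1 * (k₁ (e w).1 (e w).2.1 * k₂ (e w).1 (e w).2.2))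
    (X : Ω₀ → A → ℤ) (Y : Ω₀ → B → ℤ) (G : Ω₀ → ℝ)
    (hG : ∀ w, 0 < R w → ((∑ a, ∑ a', k₁ w a * k₁ w a' * eg J (X w a) (X w a')) +
      ∑ b, ∑ b', k₂ w b * k₂ w b' * eg J (Y w b) (Y w b')) / 2 + C ≤ G w) :
    Ex q (fun w => eg J (X (e w).1 (e w).2.1) (Y (e w).1 (e w).2.2)) ≤
      Ex q (fun w => G (e w).1) := by
  rw [eng_split q e R k₁ k₂ hq (fun w a b => eg J (X w a) (Y w b)),
    eng_split q e R k₁ k₂ hq (fun w _ _ => G w)]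
  refine Finset.sum_le_sum fun w _ => ?_
  rcases (hR w).eq_or_lt with h0 | h0
  · rw [← h0, zero_mul, zero_mul]
  · refine mul_le_mul_of_nonneg_left ?_ (hR w)
    have h3 : ∑ a, ∑ b, k₁ w a * k₂ w b * G w = G w := by
      simp_rw [← Finset.sum_mul, ← Finset.mul_sum]
      rw [s2 w h0]
      simp_rw [mul_one]
      rw [s1 w h0, one_mul]
    rw [h3]
    exact (eng_psd hC (k₁ w) (k₂ w) (h1 w) (h2 w) (s1 w h0) (s2 w h0) (X w) (Y w)).trans (hG w h0)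



/-! ### The kernel `eg` -/

lemma eg_eq_max (J : ℕ) (x y : ℤ) :
    eg J x y = max 0 (Real.log ((2 : ℝ) ^ J / max |(x : ℝ) - y| 1)) := by
  have h2 : (0 : ℝ) < 2 ^ J := by positivity
  have h1 : (0 : ℝ) < max |(x : ℝ) - y| 1 := lt_of_lt_of_le one_pos (le_max_right _ _)
  unfold eg
  rcases le_total (max |(x : ℝ) - y| 1) (2 ^ J) with h | h
  · rw [min_eq_left h]
    exact (max_eq_right (Real.log_nonneg (by rw [one_le_div h1]; exact h))).symm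
  · rw [min_eq_right h, div_self h2.ne', Real.log_one]
    exact (max_eq_left (Real.log_nonpos (by positivity) (by rw [div_le_one h1]; exact h))).symm

lemma eg_nonneg (J : ℕ) (x y : ℤ) : 0 ≤ eg J x y := by
  rw [eg_eq_max]
  exact le_max_left _ _

lemma eg_le_ell {J : ℕ} {x y : ℤ} (hx : 0 ≤ x ∧ x < ((2 ^ J : ℕ) : ℤ))
    (hy : 0 ≤ y ∧ y < ((2 ^ J : ℕ) : ℤ)) : eg J x y ≤ ell (2 ^ J) x y := by
  have h := ell_nonneg (M := 2 ^ J) (by positivity) hx hy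
  have e : ell (2 ^ J) x y = Real.log ((2 : ℝ) ^ J / max |(x : ℝ) - y| 1) := by
    unfold ell
    push_cast
    rfl
  rw [eg_eq_max, ← e, max_eq_right h]

lemma gp_le_eg (J : ℕ) (x y : ℤ) : gp J x y ≤ Real.log 2 + eg J x y := by
  have h1 : (0 : ℝ) < max |(x : ℝ) - y| 1 := lt_of_lt_of_le one_pos (le_max_right _ _)
  have h2 : (0 : ℝ) < 2 ^ J := by positivity
  unfold gp
  rw [max_comm, eg_eq_max]
  rcases le_total (max |(x : ℝ) - y| 1) (2 ^ J) with h | h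
  · have h3 : 1 ≤ (2 : ℝ) ^ J / max |(x : ℝ) - y| 1 := by rw [one_le_div h1]; exact h
    have h4 : Real.log (1 + 2 ^ J / max |(x : ℝ) - y| 1) ≤
        Real.log (2 * (2 ^ J / max |(x : ℝ) - y| 1)) :=
      Real.log_le_log (by positivity) (by linarith)
    rw [Real.log_mul (by norm_num) (by positivity)] at h4
    have h5 := le_max_right 0 (Real.log ((2 : ℝ) ^ J / max |(x : ℝ) - y| 1))
    linarith
  · have h3 : (2 : ℝ) ^ J / max |(x : ℝ) - y| 1 ≤ 1 := by rw [div_le_one h1]; exact h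
    have h4 : Real.log (1 + 2 ^ J / max |(x : ℝ) - y| 1) ≤ Real.log 2 :=
      Real.log_le_log (by positivity) (by linarith)
    have h5 := le_max_left 0 (Real.log ((2 : ℝ) ^ J / max |(x : ℝ) - y| 1))
    linarith

/-- Self energy of the rounded multiples. -/
lemma eg_ct (J : ℕ) (s t τ r r' s₀ : ℤ) :
    eg J (s₀ + ct t s τ r) (s₀ + ct t s τ r') ≤
      eg J r r' + Real.log 2 + Real.log (1 + |kap t s τ|⁻¹) := by
  have hk := kap_pos t s τ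
  have h0 : 0 ≤ eg J r r' + Real.log 2 + Real.log (1 + |kap t s τ|⁻¹) := by
    have i1 := eg_nonneg J r r'
    have i2 : 0 ≤ Real.log 2 := Real.log_nonneg (by norm_num)
    have i3 : 0 ≤ Real.log (1 + |kap t s τ|⁻¹) :=
      Real.log_nonneg (by linarith [inv_pos.mpr hk])
    linarith
  have hJ : (0 : ℝ) < 2 ^ J := by positivity
  rw [eg_eq_max J (s₀ + ct t s τ r)]
  refine max_le h0 ?_
  rcases eq_or_ne r r' with h | h
  · subst h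
    have e1 : ((s₀ + ct t s τ r : ℤ) : ℝ) - ((s₀ + ct t s τ r : ℤ) : ℝ) = (r : ℝ) - r := by ring
    rw [e1]
    have i0 := le_max_right 0 (Real.log ((2 : ℝ) ^ J / max |(r : ℝ) - r| 1))
    rw [← eg_eq_max] at i0
    have i2 : 0 ≤ Real.log 2 := Real.log_nonneg (by norm_num)
    have i3 : 0 ≤ Real.log (1 + |kap t s τ|⁻¹) :=
      Real.log_nonneg (by linarith [inv_pos.mpr hk])
    linarith
  · -- the distance of the multiples
    have g1 : (1 : ℝ) ≤ |(r : ℝ) - r'| := by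
      have : (1 : ℤ) ≤ |r - r'| := Int.one_le_abs (sub_ne_zero.mpr h)
      exact_mod_cast this
    have hmax : max |(r : ℝ) - r'| 1 = |(r : ℝ) - r'| := max_eq_left g1
    have hd : |kap t s τ| * |(r : ℝ) - r'| ≤
        2 * max |((s₀ + ct t s τ r : ℤ) : ℝ) - ((s₀ + ct t s τ r' : ℤ) : ℝ)| 1 := by
      obtain ⟨a1, a2⟩ := ct_spec t s τ r
      obtain ⟨b1, b2⟩ := ct_spec t s τ r'
      have e1 : ((s₀ + ct t s τ r : ℤ) : ℝ) - ((s₀ + ct t s τ r' : ℤ) : ℝ) =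
          (ct t s τ r : ℝ) - ct t s τ r' := by push_cast; ring
      rw [e1, ← abs_mul]
      have e2 : kap t s τ * ((r : ℝ) - r') = kap t s τ * ((r : ℝ) - t) -
        kap t s τ * ((r' : ℝ) - t) := by ring
      rw [e2]
      have c1 : |kap t s τ * ((r : ℝ) - t) - kap t s τ * ((r' : ℝ) - t)| ≤
          |(ct t s τ r : ℝ) - ct t s τ r'| + 1 := by
        rw [abs_le]
        constructor
        · have := neg_abs_le ((ct t s τ r : ℝ) - ct t s τ r')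
          linarith
        · have := le_abs_self ((ct t s τ r : ℝ) - ct t s τ r')
          linarith
      have c2 := le_max_left |(ct t s τ r : ℝ) - ct t s τ r'| 1
      have c3 := le_max_right |(ct t s τ r : ℝ) - ct t s τ r'| 1
      linarith
    have hm0 : (0 : ℝ) < max |((s₀ + ct t s τ r : ℤ) : ℝ) - ((s₀ + ct t s τ r' : ℤ) : ℝ)| 1 :=
      lt_of_lt_of_le one_pos (le_max_right _ _)
    have hr0 : (0 : ℝ) < |(r : ℝ) - r'| := by linarith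
    have h5 : (2 : ℝ) ^ J / max |((s₀ + ct t s τ r : ℤ) : ℝ) - ((s₀ + ct t s τ r' : ℤ) : ℝ)| 1 ≤
        (2 ^ J / max |(r : ℝ) - r'| 1) * 2 * (1 + |kap t s τ|⁻¹) := by
      rw [hmax, div_le_iff₀ hm0]
      have h6 : (2 : ℝ) ^ J / |(r : ℝ) - r'| * 2 * |kap t s τ|⁻¹ *
          max |((s₀ + ct t s τ r : ℤ) : ℝ) - ((s₀ + ct t s τ r' : ℤ) : ℝ)| 1 ≤
          2 ^ J / |(r : ℝ) - r'| * 2 * (1 + |kap t s τ|⁻¹) *
          max |((s₀ + ct t s τ r : ℤ) : ℝ) - ((s₀ + ct t s τ r' : ℤ) : ℝ)| 1 := by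
        gcongr
        linarith
      refine le_trans ?_ h6
      have h7 : (2 : ℝ) ^ J / |(r : ℝ) - r'| * 2 * |kap t s τ|⁻¹ *
          max |((s₀ + ct t s τ r : ℤ) : ℝ) - ((s₀ + ct t s τ r' : ℤ) : ℝ)| 1 =
          2 ^ J / (|kap t s τ| * |(r : ℝ) - r'|) *
          (2 * max |((s₀ + ct t s τ r : ℤ) : ℝ) - ((s₀ + ct t s τ r' : ℤ) : ℝ)| 1) := by
        field_simp
      rw [h7]
      calc (2 : ℝ) ^ J = 2 ^ J / (|kap t s τ| * |(r : ℝ) - r'|) *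
            (|kap t s τ| * |(r : ℝ) - r'|) := by field_simp
        _ ≤ _ := mul_le_mul_of_nonneg_left hd (by positivity)
    have hr1 : (0 : ℝ) < max |(r : ℝ) - r'| 1 := lt_of_lt_of_le one_pos (le_max_right _ _)
    have h8 := Real.log_le_log (by positivity) h5
    rw [Real.log_mul (by positivity) (by positivity), Real.log_mul (by positivity) (by norm_num)]
      at h8
    have i0 := le_max_right 0 (Real.log ((2 : ℝ) ^ J / max |(r : ℝ) - r'| 1))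
    rw [← eg_eq_max] at i0
    linarith

section Main

variable {d J : ℕ} {Ω : Type} [Fintype Ω] {ζ : Type} {p : Ω → ℝ} {Z : Ω → ζ}
  {v : Ω → Fin d → ℤ} {u : Ω → Fin d → ℝ} {τ : Ω → ℤ}

lemma pP_kk (M : ℕ) (hp : ∀ ω, 0 ≤ p ω) (w : ((Ω × Ω) × Ω) × (Ω × Ω)) :
    pP M p Z v u τ w = p w.1.1.1 * kk p (av M Z v u τ) (av M Z v u τ w.1.1.1) w.2.1 *
      kk p (bv Z v) (bv Z v w.1.1.1) w.1.1.2 * kk p (bv Z v) (bv Z v w.1.1.1) w.1.2 *
      kk p (bv Z v) (bv Z v w.2.1) w.2.2 := by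
  obtain ⟨⟨⟨x, y⟩, z⟩, a, b⟩ := w
  unfold pP glue
  simp only
  rw [tri_kk hp, dbl_kk, show law (tri p (bv Z v)) (fun w => av M Z v u τ w.1.1) (av M Z v u τ x) =
    law p (av M Z v u τ) (av M Z v u τ x) from (tri_1 hp).law _ _]
  unfold kk
  by_cases h : av M Z v u τ x = av M Z v u τ a
  · rw [if_pos h, if_pos h.symm]
    ring
  · rw [if_neg h, if_neg (Ne.symm h)]
    ring

lemma pC_kk (M : ℕ) (hp : ∀ ω, 0 ≤ p ω) (w : (((Ω × Ω) × Ω) × (Ω × Ω)) × ((Ω × Ω) × Ω)) :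
    pC M p Z v u τ w = pP M p Z v u τ w.1 *
      kk p (av M Z v u τ) (av M Z v u τ w.1.1.1.2) w.2.1.1 *
      kk p (bv Z v) (bv Z v w.2.1.1) w.2.1.2 * kk p (bv Z v) (bv Z v w.2.1.1) w.2.2 := by
  obtain ⟨⟨⟨⟨x, y⟩, z⟩, a, b⟩, ⟨c, e⟩, f⟩ := w
  unfold pC glue
  simp only
  rw [tri_kk hp, show law (pP M p Z v u τ) (fun w => av M Z v u τ w.1.1.2) (av M Z v u τ y) =
    law p (av M Z v u τ) (av M Z v u τ y) from ((pP_fst hp).comp (tri_2 hp)).law _ _]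
  unfold kk
  by_cases h : av M Z v u τ y = av M Z v u τ c
  · rw [if_pos h, if_pos h.symm]
    ring
  · rw [if_neg h, if_neg (Ne.symm h)]
    ring

/-- Self energy of the times of a line. -/
noncomputable def El (J : ℕ) {β : Type*} (p : Ω → ℝ) (b : Ω → β) (τ : Ω → ℤ) (c : β) : ℝ :=
  ∑ x, ∑ y, kk p b c x * kk p b c y * eg J (τ x) (τ y)

lemma El_ex (hp : ∀ ω, 0 ≤ p ω) {β : Type*} (b : Ω → β) :
    Ex p (fun ω => El J p b τ (b ω)) = Ex (dbl p b) (fun w => eg J (τ w.1) (τ w.2)) := by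
  have h1 : Marg (tri p b) (dbl p b) (fun w => (w.1.2, w.2)) := (tri_cycle hp).comp (tri_fst hp)
  rw [← h1.ex (fun w => eg J (τ w.1) (τ w.2))]
  unfold Ex El
  rw [Fintype.sum_prod_type, Fintype.sum_prod_type]
  refine Finset.sum_congr rfl fun x _ => ?_
  rw [Finset.mul_sum]
  refine Finset.sum_congr rfl fun y _ => ?_
  rw [Finset.mul_sum]
  refine Finset.sum_congr rfl fun z _ => ?_
  rw [tri_kk hp]
  ring

lemma El_le (h : IsFam (2 ^ J) p Z v u τ) :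
    Ex p (fun ω => El J p (bv Z v) τ (bv Z v ω)) ≤ Gf (2 ^ J) p (bv Z v) τ := by
  rw [El_ex h.hp]
  refine Ex_mono (dbl_nonneg h.hp) fun w hw => ?_
  exact eg_le_ell (h.hτ _ ((dbl_fst h.hp).pos (dbl_nonneg h.hp) hw))
    (h.hτ _ ((dbl_snd h.hp).pos (dbl_nonneg h.hp) hw))

lemma kk_pos {Ω' β : Type*} [Fintype Ω'] {p : Ω' → ℝ} {b : Ω' → β} {c : β} {ω : Ω'}
    (hp : ∀ ω, 0 ≤ p ω) (h : 0 < kk p b c ω) : 0 < p ω := by
  rcases (hp ω).eq_or_lt with h0 | h0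
  · exfalso
    unfold kk at h
    rw [← h0, zero_div, ite_self] at h
    exact lt_irrefl _ h
  · exact h0

lemma mul4_pos {a b c e : ℝ} (ha : 0 ≤ a) (hb : 0 ≤ b) (hc : 0 ≤ c) (he : 0 ≤ e)
    (h : 0 < a * b * c * e) : 0 < a ∧ 0 < b ∧ 0 < c ∧ 0 < e := by
  refine ⟨lt_of_le_of_ne ha ?_, lt_of_le_of_ne hb ?_, lt_of_le_of_ne hc ?_,
    lt_of_le_of_ne he ?_⟩ <;>
  · intro h0
    rw [← h0] at h
    simp at h

/-- The energy of the times `s` (or `t₁`) and `r`. -/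
lemma eng_rs (C : ℝ)
    (hC : ∀ (S : Finset ℤ) (μ ν : ℤ → ℝ), (∀ x, 0 ≤ μ x) → (∀ x, 0 ≤ ν x) →
      ∑ x ∈ S, μ x = 1 → ∑ x ∈ S, ν x = 1 →
      ∑ x ∈ S, ∑ y ∈ S, μ x * ν y * eg J x y ≤
      ((∑ x ∈ S, ∑ y ∈ S, μ x * μ y * eg J x y) + ∑ x ∈ S, ∑ y ∈ S, ν x * ν y * eg J x y) / 2 + C)
    (h : IsFam (2 ^ J) p Z v u τ) :
    Ex (pP (2 ^ J) p Z v u τ) (fun w => eg J (τ w.2.2) (τ w.1.1.2)) ≤
      Gf (2 ^ J) p (bv Z v) τ + C ∧
    Ex (pP (2 ^ J) p Z v u τ) (fun w => eg J (τ w.2.2) (τ w.1.2)) ≤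
      Gf (2 ^ J) p (bv Z v) τ + C := by
  have hp := h.hp
  have hE := El_le h
  have m0 : Ex (pP (2 ^ J) p Z v u τ) (fun w => El J p (bv Z v) τ (bv Z v w.1.1.1)) ≤
      Gf (2 ^ J) p (bv Z v) τ := by
    rw [((pP_fst (v := v) (u := u) hp).comp (tri_1 hp)).ex
      (fun ω => El J p (bv Z v) τ (bv Z v ω))]
    exact hE
  have m1 : Ex (pP (2 ^ J) p Z v u τ) (fun w => El J p (bv Z v) τ (bv Z v w.2.1)) ≤
      Gf (2 ^ J) p (bv Z v) τ := by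
    rw [((pP_snd (v := v) (u := u) hp).comp (dbl_fst hp)).ex
      (fun ω => El J p (bv Z v) τ (bv Z v ω))]
    exact hE
  have hsum : ∑ w, pP (2 ^ J) p Z v u τ w = 1 := by
    rw [((pP_fst (v := v) (u := u) hp).comp (tri_1 hp)).sum, h.h1]
  have fin : Ex (pP (2 ^ J) p Z v u τ) (fun w => (El J p (bv Z v) τ (bv Z v w.2.1) +
      El J p (bv Z v) τ (bv Z v w.1.1.1)) / 2 + C) ≤ Gf (2 ^ J) p (bv Z v) τ + C := by
    have e1 : Ex (pP (2 ^ J) p Z v u τ) (fun w => (El J p (bv Z v) τ (bv Z v w.2.1) +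
        El J p (bv Z v) τ (bv Z v w.1.1.1)) / 2 + C) =
        (1 / 2) * (Ex (pP (2 ^ J) p Z v u τ) (fun w => El J p (bv Z v) τ (bv Z v w.2.1)) +
        Ex (pP (2 ^ J) p Z v u τ) (fun w => El J p (bv Z v) τ (bv Z v w.1.1.1))) + C := by
      rw [← Ex_add, ← Ex_smul, ← Ex_const hsum C, ← Ex_add]
      refine Finset.sum_congr rfl fun w _ => ?_
      rw [Ex_const hsum C]
      ring
    rw [e1]
    linarith
  have R0 : ∀ w : (Ω × Ω) × Ω, 0 ≤ p w.1.1 *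
      kk p (av (2 ^ J) Z v u τ) (av (2 ^ J) Z v u τ w.1.1) w.2 *
      kk p (bv Z v) (bv Z v w.1.1) w.1.2 * 1 := fun w =>
    mul_nonneg (mul_nonneg (mul_nonneg (hp _) (kk_nonneg hp _ _ _)) (kk_nonneg hp _ _ _))
      zero_le_one
  have R1 : ∀ w : (Ω × Ω) × Ω, 0 < p w.1.1 *
      kk p (av (2 ^ J) Z v u τ) (av (2 ^ J) Z v u τ w.1.1) w.2 *
      kk p (bv Z v) (bv Z v w.1.1) w.1.2 * 1 → 0 < p w.1.1 ∧ 0 < p w.2 := fun w hw => by
    obtain ⟨a1, a2, a3, -⟩ := mul4_pos (hp _) (kk_nonneg hp _ _ _) (kk_nonneg hp _ _ _)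
      zero_le_one hw
    exact ⟨a1, kk_pos hp a2⟩
  constructor
  · refine (eng_dd hC (pP (2 ^ J) p Z v u τ)
      (⟨fun w => (((w.1.1.1, w.1.2), w.2.1), (w.2.2, w.1.1.2)),
        fun w => (((w.1.1.1, w.2.2), w.1.1.2), (w.1.2, w.2.1)), fun _ => rfl, fun _ => rfl⟩ :
        ((Ω × Ω) × Ω) × (Ω × Ω) ≃ ((Ω × Ω) × Ω) × (Ω × Ω))
      (fun w => p w.1.1 * kk p (av (2 ^ J) Z v u τ) (av (2 ^ J) Z v u τ w.1.1) w.2 *
        kk p (bv Z v) (bv Z v w.1.1) w.1.2 * 1)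
      (fun w => kk p (bv Z v) (bv Z v w.2)) (fun w => kk p (bv Z v) (bv Z v w.1.1)) R0
      (fun w a => kk_nonneg hp _ _ _) (fun w a => kk_nonneg hp _ _ _)
      (fun w hw => kk_sum (law_pos' hp _ (R1 w hw).2))
      (fun w hw => kk_sum (law_pos' hp _ (R1 w hw).1))
      (fun w => ?_) (fun _ a => τ a) (fun _ a => τ a)
      (fun w => (El J p (bv Z v) τ (bv Z v w.2) + El J p (bv Z v) τ (bv Z v w.1.1)) / 2 + C)
      (fun w _ => le_rfl)).trans fin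
    rw [pP_kk _ hp]
    simp only [Equiv.coe_fn_mk]
    ring
  · refine (eng_dd hC (pP (2 ^ J) p Z v u τ)
      (⟨fun w => (((w.1.1.1, w.1.1.2), w.2.1), (w.2.2, w.1.2)),
        fun w => (((w.1.1.1, w.1.1.2), w.2.2), (w.1.2, w.2.1)), fun _ => rfl, fun _ => rfl⟩ :
        ((Ω × Ω) × Ω) × (Ω × Ω) ≃ ((Ω × Ω) × Ω) × (Ω × Ω))
      (fun w => p w.1.1 * kk p (av (2 ^ J) Z v u τ) (av (2 ^ J) Z v u τ w.1.1) w.2 *
        kk p (bv Z v) (bv Z v w.1.1) w.1.2 * 1)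
      (fun w => kk p (bv Z v) (bv Z v w.2)) (fun w => kk p (bv Z v) (bv Z v w.1.1)) R0
      (fun w a => kk_nonneg hp _ _ _) (fun w a => kk_nonneg hp _ _ _)
      (fun w hw => kk_sum (law_pos' hp _ (R1 w hw).2))
      (fun w hw => kk_sum (law_pos' hp _ (R1 w hw).1))
      (fun w => ?_) (fun _ a => τ a) (fun _ a => τ a)
      (fun w => (El J p (bv Z v) τ (bv Z v w.2) + El J p (bv Z v) τ (bv Z v w.1.1)) / 2 + C)
      (fun w _ => le_rfl)).trans fin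
    rw [pP_kk _ hp]
    simp only [Equiv.coe_fn_mk]
    ring

/-- The energy of the times `ta` and `T_O`. -/
lemma eng_ta (C : ℝ)
    (hC : ∀ (S : Finset ℤ) (μ ν : ℤ → ℝ), (∀ x, 0 ≤ μ x) → (∀ x, 0 ≤ ν x) →
      ∑ x ∈ S, μ x = 1 → ∑ x ∈ S, ν x = 1 →
      ∑ x ∈ S, ∑ y ∈ S, μ x * ν y * eg J x y ≤
      ((∑ x ∈ S, ∑ y ∈ S, μ x * μ y * eg J x y) + ∑ x ∈ S, ∑ y ∈ S, ν x * ν y * eg J x y) / 2 + C)
    (h : IsFam (2 ^ J) p Z v u τ) :
    Ex (pC (2 ^ J) p Z v u τ) (fun w => eg J (τ w.2.2) (τ w.1.1.1.2 +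
        ct (τ w.1.1.1.1) (τ w.1.1.1.2) (τ w.1.1.2) (τ w.1.2.2))) ≤
      (3 / 2) * Gf (2 ^ J) p (bv Z v) τ + 2 + C := by
  have hp := h.hp
  have hE := El_le h
  have m0 : Ex (pC (2 ^ J) p Z v u τ) (fun w => El J p (bv Z v) τ (bv Z v w.2.1.1)) ≤
      Gf (2 ^ J) p (bv Z v) τ := by
    rw [((pC_snd (v := v) (u := u) hp).comp (tri_1 hp)).ex
      (fun ω => El J p (bv Z v) τ (bv Z v ω))]
    exact hE
  have m1 : Ex (pC (2 ^ J) p Z v u τ) (fun w => El J p (bv Z v) τ (bv Z v w.1.2.1)) ≤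
      Gf (2 ^ J) p (bv Z v) τ := by
    rw [((pC_fst (v := v) (u := u) hp).comp ((pP_snd hp).comp (dbl_fst hp))).ex
      (fun ω => El J p (bv Z v) τ (bv Z v ω))]
    exact hE
  have m2 : Ex (pC (2 ^ J) p Z v u τ) (fun w =>
      Real.log (1 + |kap (τ w.1.1.1.1) (τ w.1.1.1.2) (τ w.1.1.2)|⁻¹)) ≤
      Gf (2 ^ J) p (bv Z v) τ + 3 := by
    have e1 := ((pC_fst (v := v) (u := u) (M := 2 ^ J) (τ := τ) (Z := Z) hp).comp
      ((pP_fst hp).comp (tri_swap12 hp))).ex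
      (fun w => Real.log (1 + |kap (τ w.1.1) (τ w.1.2) (τ w.2)|))
    have e2 : Ex (pC (2 ^ J) p Z v u τ) (fun w =>
        Real.log (1 + |kap (τ w.1.1.1.1) (τ w.1.1.1.2) (τ w.1.1.2)|⁻¹)) =
        Ex (pC (2 ^ J) p Z v u τ) (fun w =>
          Real.log (1 + |kap (τ w.1.1.1.2) (τ w.1.1.1.1) (τ w.1.1.2)|)) := by
      unfold Ex
      refine Finset.sum_congr rfl fun w _ => ?_
      have e3 := kap_swap (τ w.1.1.1.1) (τ w.1.1.1.2) (τ w.1.1.2)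
      simp only [e3, abs_inv]
    rw [e2]
    simp only at e1
    rw [e1]
    exact Df_le h
  have hsum : ∑ w, pC (2 ^ J) p Z v u τ w = 1 := by
    rw [((pC_snd (v := v) (u := u) hp).comp (tri_1 hp)).sum, h.h1]
  have fin : Ex (pC (2 ^ J) p Z v u τ) (fun w => (El J p (bv Z v) τ (bv Z v w.2.1.1) +
      (El J p (bv Z v) τ (bv Z v w.1.2.1) + Real.log 2 +
      Real.log (1 + |kap (τ w.1.1.1.1) (τ w.1.1.1.2) (τ w.1.1.2)|⁻¹))) / 2 + C) ≤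
      (3 / 2) * Gf (2 ^ J) p (bv Z v) τ + 2 + C := by
    have e1 : Ex (pC (2 ^ J) p Z v u τ) (fun w => (El J p (bv Z v) τ (bv Z v w.2.1.1) +
        (El J p (bv Z v) τ (bv Z v w.1.2.1) + Real.log 2 +
        Real.log (1 + |kap (τ w.1.1.1.1) (τ w.1.1.1.2) (τ w.1.1.2)|⁻¹))) / 2 + C) =
        (1 / 2) * (Ex (pC (2 ^ J) p Z v u τ) (fun w => El J p (bv Z v) τ (bv Z v w.2.1.1)) +
        Ex (pC (2 ^ J) p Z v u τ) (fun w => El J p (bv Z v) τ (bv Z v w.1.2.1)) +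
        Ex (pC (2 ^ J) p Z v u τ) (fun w =>
          Real.log (1 + |kap (τ w.1.1.1.1) (τ w.1.1.1.2) (τ w.1.1.2)|⁻¹))) +
        (Real.log 2 / 2 + C) := by
      rw [← Ex_add, ← Ex_add, ← Ex_smul, ← Ex_const hsum (Real.log 2 / 2 + C), ← Ex_add]
      refine Finset.sum_congr rfl fun w _ => ?_
      ring
    rw [e1]
    have := Real.log_two_lt_d9
    linarith
  have R0 : ∀ w : (((Ω × Ω) × Ω) × Ω) × (Ω × Ω), 0 ≤ (p w.1.1.1.1 *
      kk p (av (2 ^ J) Z v u τ) (av (2 ^ J) Z v u τ w.1.1.1.1) w.1.2 *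
      kk p (bv Z v) (bv Z v w.1.1.1.1) w.1.1.1.2 * kk p (bv Z v) (bv Z v w.1.1.1.1) w.1.1.2) *
      kk p (av (2 ^ J) Z v u τ) (av (2 ^ J) Z v u τ w.1.1.1.2) w.2.1 *
      kk p (bv Z v) (bv Z v w.2.1) w.2.2 * 1 := fun w =>
    mul_nonneg (mul_nonneg (mul_nonneg (mul_nonneg (mul_nonneg (mul_nonneg (hp _)
      (kk_nonneg hp _ _ _)) (kk_nonneg hp _ _ _)) (kk_nonneg hp _ _ _)) (kk_nonneg hp _ _ _))
      (kk_nonneg hp _ _ _)) zero_le_one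
  have R1 : ∀ w : (((Ω × Ω) × Ω) × Ω) × (Ω × Ω), 0 < (p w.1.1.1.1 *
      kk p (av (2 ^ J) Z v u τ) (av (2 ^ J) Z v u τ w.1.1.1.1) w.1.2 *
      kk p (bv Z v) (bv Z v w.1.1.1.1) w.1.1.1.2 * kk p (bv Z v) (bv Z v w.1.1.1.1) w.1.1.2) *
      kk p (av (2 ^ J) Z v u τ) (av (2 ^ J) Z v u τ w.1.1.1.2) w.2.1 *
      kk p (bv Z v) (bv Z v w.2.1) w.2.2 * 1 → 0 < p w.2.1 ∧ 0 < p w.1.2 := fun w hw => by
    obtain ⟨a1, a2, -, -⟩ := mul4_pos (mul_nonneg (mul_nonneg (mul_nonneg (hp _)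
      (kk_nonneg hp _ _ _)) (kk_nonneg hp _ _ _)) (kk_nonneg hp _ _ _)) (kk_nonneg hp _ _ _)
      (kk_nonneg hp _ _ _) zero_le_one hw
    obtain ⟨-, b2, -, -⟩ := mul4_pos (hp _) (kk_nonneg hp _ _ _) (kk_nonneg hp _ _ _)
      (kk_nonneg hp _ _ _) a1
    exact ⟨kk_pos hp a2, kk_pos hp b2⟩
  refine (eng_dd hC (pC (2 ^ J) p Z v u τ)
    (⟨fun w => (((w.1.1, w.1.2.1), w.2.1), (w.2.2, w.1.2.2)),
      fun w => ((w.1.1.1, (w.1.1.2, w.2.2)), (w.1.2, w.2.1)), fun _ => rfl, fun _ => rfl⟩ :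
      (((Ω × Ω) × Ω) × (Ω × Ω)) × ((Ω × Ω) × Ω) ≃ ((((Ω × Ω) × Ω) × Ω) × (Ω × Ω)) × (Ω × Ω))
    (fun w => (p w.1.1.1.1 *
      kk p (av (2 ^ J) Z v u τ) (av (2 ^ J) Z v u τ w.1.1.1.1) w.1.2 *
      kk p (bv Z v) (bv Z v w.1.1.1.1) w.1.1.1.2 * kk p (bv Z v) (bv Z v w.1.1.1.1) w.1.1.2) *
      kk p (av (2 ^ J) Z v u τ) (av (2 ^ J) Z v u τ w.1.1.1.2) w.2.1 *
      kk p (bv Z v) (bv Z v w.2.1) w.2.2 * 1)
    (fun w => kk p (bv Z v) (bv Z v w.2.1)) (fun w => kk p (bv Z v) (bv Z v w.1.2)) R0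
    (fun w a => kk_nonneg hp _ _ _) (fun w a => kk_nonneg hp _ _ _)
    (fun w hw => kk_sum (law_pos' hp _ (R1 w hw).1))
    (fun w hw => kk_sum (law_pos' hp _ (R1 w hw).2))
    (fun w => ?_) (fun _ a => τ a)
    (fun w a => τ w.1.1.1.2 + ct (τ w.1.1.1.1) (τ w.1.1.1.2) (τ w.1.1.2) (τ a))
    (fun w => (El J p (bv Z v) τ (bv Z v w.2.1) + (El J p (bv Z v) τ (bv Z v w.1.2) +
      Real.log 2 + Real.log (1 + |kap (τ w.1.1.1.1) (τ w.1.1.1.2) (τ w.1.1.2)|⁻¹))) / 2 + C)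
    (fun w hw => ?_)).trans fin
  · rw [pC_kk _ hp, pP_kk _ hp]
    simp only [Equiv.coe_fn_mk]
    ring
  · have hs := kk_sum (law_pos' hp (bv Z v) (R1 w hw).2)
    have h3 : ∑ a, ∑ b, kk p (bv Z v) (bv Z v w.1.2) a * kk p (bv Z v) (bv Z v w.1.2) b *
        eg J (τ w.1.1.1.2 + ct (τ w.1.1.1.1) (τ w.1.1.1.2) (τ w.1.1.2) (τ a))
          (τ w.1.1.1.2 + ct (τ w.1.1.1.1) (τ w.1.1.1.2) (τ w.1.1.2) (τ b)) ≤
        El J p (bv Z v) τ (bv Z v w.1.2) + Real.log 2 +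
        Real.log (1 + |kap (τ w.1.1.1.1) (τ w.1.1.1.2) (τ w.1.1.2)|⁻¹) := by
      have h4 : ∑ a, ∑ b, kk p (bv Z v) (bv Z v w.1.2) a * kk p (bv Z v) (bv Z v w.1.2) b *
          (Real.log 2 + Real.log (1 + |kap (τ w.1.1.1.1) (τ w.1.1.1.2) (τ w.1.1.2)|⁻¹)) =
          Real.log 2 + Real.log (1 + |kap (τ w.1.1.1.1) (τ w.1.1.1.2) (τ w.1.1.2)|⁻¹) := by
        simp_rw [← Finset.sum_mul, ← Finset.mul_sum]
        rw [hs]
        simp_rw [mul_one]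
        rw [hs, one_mul]
      have h5 : El J p (bv Z v) τ (bv Z v w.1.2) + Real.log 2 +
          Real.log (1 + |kap (τ w.1.1.1.1) (τ w.1.1.1.2) (τ w.1.1.2)|⁻¹) =
          ∑ a, ∑ b, kk p (bv Z v) (bv Z v w.1.2) a * kk p (bv Z v) (bv Z v w.1.2) b *
          (eg J (τ a) (τ b) + (Real.log 2 +
            Real.log (1 + |kap (τ w.1.1.1.1) (τ w.1.1.1.2) (τ w.1.1.2)|⁻¹))) := by
        simp_rw [mul_add (kk p (bv Z v) (bv Z v w.1.2) _ * kk p (bv Z v) (bv Z v w.1.2) _)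
          (eg J _ _), Finset.sum_add_distrib]
        rw [h4]
        unfold El
        ring
      rw [h5]
      refine Finset.sum_le_sum fun a _ => Finset.sum_le_sum fun b _ => ?_
      refine mul_le_mul_of_nonneg_left ?_ (mul_nonneg (kk_nonneg hp _ _ _) (kk_nonneg hp _ _ _))
      have := eg_ct J (τ w.1.1.1.2) (τ w.1.1.1.1) (τ w.1.1.2) (τ a) (τ b) (τ w.1.1.1.2)
      linarith
    have h6 : ∑ a, ∑ b, kk p (bv Z v) (bv Z v w.2.1) a * kk p (bv Z v) (bv Z v w.2.1) b *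
        eg J (τ a) (τ b) = El J p (bv Z v) τ (bv Z v w.2.1) := rfl
    linarith

end Main

/-- (ENG2) -/
theorem eng2 (hPSD : PSDStmt) : ENG2Stmt := by
  obtain ⟨C, hC⟩ := hPSD
  refine ⟨3 * |C| + 8, by positivity, ?_⟩
  intro d J Ω _ ζ p Z v u τ h
  have hp := h.hp
  obtain ⟨h1, h2⟩ := eng_rs C (hC J) h
  have h3 := eng_ta C (hC J) h
  have hG := Gf_nonneg h
  have hsum : ∑ w, pC (2 ^ J) p Z v u τ w = 1 := by
    rw [((pC_snd (v := v) (u := u) hp).comp (tri_1 hp)).sum, h.h1]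
  have e1 := (pC_fst (v := v) (u := u) (M := 2 ^ J) (τ := τ) (Z := Z) hp).ex
    (fun w => eg J (τ w.2.2) (τ w.1.1.2))
  have e2 := (pC_fst (v := v) (u := u) (M := 2 ^ J) (τ := τ) (Z := Z) hp).ex
    (fun w => eg J (τ w.2.2) (τ w.1.2))
  rw [← e1] at h1
  rw [← e2] at h2
  have h4 : Ex (pC (2 ^ J) p Z v u τ) (fun w => gp J (τ w.1.2.2) (τ w.1.1.1.2) +
      gp J (τ w.1.2.2) (τ w.1.1.2) + gp J (τ w.2.2) (τ w.1.1.1.2 +
        ct (τ w.1.1.1.1) (τ w.1.1.1.2) (τ w.1.1.2) (τ w.1.2.2))) ≤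
      Ex (pC (2 ^ J) p Z v u τ) (fun w => eg J (τ w.1.2.2) (τ w.1.1.1.2) +
      eg J (τ w.1.2.2) (τ w.1.1.2) + eg J (τ w.2.2) (τ w.1.1.1.2 +
        ct (τ w.1.1.1.1) (τ w.1.1.1.2) (τ w.1.1.2) (τ w.1.2.2)) + 3 * Real.log 2) := by
    refine Ex_mono (pC_nonneg hp) fun w _ => ?_
    have g1 := gp_le_eg J (τ w.1.2.2) (τ w.1.1.1.2)
    have g2 := gp_le_eg J (τ w.1.2.2) (τ w.1.1.2)
    have g3 := gp_le_eg J (τ w.2.2) (τ w.1.1.1.2 +
      ct (τ w.1.1.1.1) (τ w.1.1.1.2) (τ w.1.1.2) (τ w.1.2.2))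
    linarith
  refine h4.trans ?_
  rw [Ex_add, Ex_add, Ex_add, Ex_const hsum]
  have h5 := Real.log_two_lt_d9
  have h6 := le_abs_self C
  have h7 := abs_nonneg C
  nlinarith [mul_nonneg h7 hG]

end Pool.LQ
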