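import Pool.Agent.H60.LQ.Stmts
import Pool.Agent.H32.Dense.Fam

/-!
# LQ: the gain is nonnegative
-/

set_option autoImplicit false

namespace Pool.LQ

open Finset Real
open Pool.Agent.H49.Ent Pool.Agent.H32.Dense Pool.Agent.H24.KTH

lemma lvv_le {d : ℕ} (J : ℕ) (x y : Fin d → ℤ) : lvv (2 ^ J) x y ≤ J * Real.log 2 := by
  have h1 : (1 : ℝ) ≤ max (dsv x y) 1 := le_max_right _ _
  have h2 : (((2 ^ J : ℕ) : ℝ)) / max (dsv x y) 1 ≤ (2 : ℝ) ^ J := by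
    push_cast
    exact div_le_self (by positivity) h1
  unfold lvv
  rw [← Real.log_pow]
  exact Real.log_le_log (by positivity) h2

lemma Yf_le {d : ℕ} {Ω : Type} [Fintype Ω] {ζ : Type} {J : ℕ} {p : Ω → ℝ} {Z : Ω → ζ}
    {v : Ω → Fin d → ℤ} {u : Ω → Fin d → ℝ} {τ : Ω → ℤ} (h : IsFam (2 ^ J) p Z v u τ) :
    Yf (2 ^ J) p Z v u τ ≤ J * Real.log 2 := by
  unfold Yf
  have h1 : Ex (dbl p (av (2 ^ J) Z v u τ)) (fun x => lvv (2 ^ J) (v x.1) (v x.2)) ≤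
      Ex (dbl p (av (2 ^ J) Z v u τ)) (fun _ => J * Real.log 2) :=
    Ex_mono (dbl_nonneg h.hp) fun x _ => lvv_le J _ _
  rw [Ex_const] at h1
  · exact h1
  · rw [(dbl_fst h.hp).sum]
    exact h.h1

/-- (GAG) -/
theorem gag : GAGStmt := by
  intro d a Λ k hk h ε hε
  obtain ⟨B₀, B₁, hB, hA⟩ := h ε hε
  refine ⟨B₀, B₁, hB, ?_⟩
  intro J Ω _ ζ p Z v u τ hf
  have h1 := hA J Ω ζ p Z v u τ hf
  have h2 := mul_nonneg hk (sub_nonneg.mpr (Yf_le hf))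
  linarith

end Pool.LQ
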