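import Pool.Agent.H60.LQ.Cfg

/-!
# LQ: (T1R2)
-/

set_option autoImplicit false

namespace Pool.LQ

open Finset Real
open Pool.Agent.H49.Ent Pool.Agent.H32.Dense Pool.KTH

/-- (T1R2) -/
theorem t1r2 (h : UFT2Stmt) : T1R2Stmt := by
  intro d
  obtain ⟨C, hC, hU⟩ := h d
  refine ⟨C, hC, fun J F L sb K G hF => ?_⟩
  have h1 := hU J F L sb K G hF
  have hq := F.hq
  have h2 := CH_chain hq (fun w => (F.t₁ w, F.O w)) F.r (fun w => (F.v01 w, F.Z w))
  have h3 : CH F.q (fun w => ((F.t₁ w, F.O w), F.r w)) (fun w => (F.v01 w, F.Z w)) ≤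
      CH F.q (fun w => ((F.t₁ w, F.r w), F.O w)) (fun w => (F.v01 w, F.Z w)) :=
    CH_mono_left hq fun ω ω' _ _ h => by
      simp only [Prod.mk.injEq] at h ⊢
      tauto
  have h4 : CH F.q F.r (fun w => (F.v3 w, (F.t w, F.s w), (F.t₁ w, F.tr w, F.ta w), F.Z w)) ≤
      CH F.q F.r (fun w => (F.v01 w, F.Z w)) :=
    CH_mono_cond hq fun ω ω' _ _ h => by
      simp only [Prod.mk.injEq, Cf.v3, Cf.v01] at h ⊢
      tauto
  have h5 : CH F.q (fun w => (F.t₁ w, F.O w)) (fun w => (F.v01 w, (F.t w, F.r w), F.Z w)) ≤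
      CH F.q (fun w => (F.t₁ w, F.O w)) (fun w => (F.r w, (F.v01 w, F.Z w))) :=
    CH_mono_cond hq fun ω ω' _ _ h => by
      simp only [Prod.mk.injEq] at h ⊢
      tauto
  have h6 : CH F.q (fun w => (F.t₁ w, F.TO w)) (fun w => (F.v01 w, (F.t w, F.r w), F.Z w)) ≤
      CH F.q (fun w => (F.t₁ w, F.O w)) (fun w => (F.v01 w, (F.t w, F.r w), F.Z w)) :=
    CH_mono_left hq fun ω ω' _ _ h => by
      have h0 := Prod.ext_iff.mp (Prod.ext_iff.mp h).1
      exact Prod.ext h0.1 (Prod.ext_iff.mp h0.2).1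
  have h7 := hF.cr
  linarith

end Pool.LQ
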